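import Pool.Agent.Lib.MP_07d80f_al.As.Main

set_option autoImplicit false

open Pool.Agent.Lib.MP_07d80f_al

/-- For every diagram group, the asymptotic dimension equals the algebraic dimension. -/
theorem Pool.Agent.Results.MP_07d80f_al.AsdimEqAd.result :
    ∀ (G : Type) [Group G], IsDiagramGroup G → asdim G = ad G :=
  fun G _ hG => asdim_eq_ad G hG
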